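import Mathlib
import Pool.Agent.W323.PT.Stm

/-!
# Convex sets which each miss less than a third of a finite weight have a common point
-/

set_option autoImplicit false

namespace Pool.Agent.W225.PT

open Pool.Agent.W323.PT

theorem center : S_Helly → S_Center := by
  intro hH ι _ w q F p δ hw hF hm hK
  classical
  refine hH F hF ?_
  intro A hA B hB C hC
  by_contra hno
  push Not at hno
  have h1 : mass w p ≤ mass w (fun i => p i ∧ q i ∉ A) + mass w (fun i => p i ∧ q i ∉ B) +
      mass w (fun i => p i ∧ q i ∉ C) := by
    unfold mass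
    rw [← Finset.sum_add_distrib, ← Finset.sum_add_distrib]
    refine Finset.sum_le_sum fun i _ => ?_
    have hi := hw i
    by_cases hp : p i
    · have h2 : q i ∉ A ∨ q i ∉ B ∨ q i ∉ C := by
        by_contra h3
        push Not at h3
        exact hno (q i) h3.1 h3.2.1 h3.2.2
      have h4 : ∀ (P : Prop) (d : Decidable P), (0 : ℝ) ≤ @ite ℝ P d (w i) 0 := by
        intro P d
        split_ifs
        · exact hi
        · exact le_refl _
      rw [if_pos hp]
      rcases h2 with h | h | h
      · rw [if_pos (show p i ∧ q i ∉ A from ⟨hp, h⟩)]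
        exact le_add_of_le_of_nonneg (le_add_of_nonneg_right (h4 _ _)) (h4 _ _)
      · rw [if_pos (show p i ∧ q i ∉ B from ⟨hp, h⟩)]
        exact le_add_of_le_of_nonneg (le_add_of_nonneg_left (h4 _ _)) (h4 _ _)
      · rw [if_pos (show p i ∧ q i ∉ C from ⟨hp, h⟩)]
        exact le_add_of_nonneg_left (add_nonneg (h4 _ _) (h4 _ _))
    · simp [hp]
  have h2 := hK A hA
  have h3 := hK B hB
  have h4 := hK C hC
  linarith

end Pool.Agent.W225.PT
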